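import Pool.Agent.Lib.MP_0db9b2_pr.ExIto
import Pool.Agent.Lib.MP_0db9b2_pr.DefSol

/-
Convergence to equilibrium for the nonlinear parabolic Anderson model, for every k ≥ 0.
-/

set_option autoImplicit false

open MeasureTheory ProbabilityTheory Filter
open scoped NNReal
open Pool.Agent.Lib.MP_0db9b2_pr

theorem Pool.Agent.Results.MP_0db9b2_pr.Equilibrium.result
    (d : ℕ) (hd : 1 ≤ d) (γ : ℕ) (hγ : 2 ≤ γ) (ε : ℝ) (hε : 0 < ε) (k : ℝ) (hk : 0 ≤ k) (a : ℝ)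
    {Ω : Type*} [mΩ : MeasurableSpace Ω] (P : Measure Ω) [IsProbabilityMeasure P]
    (F : Filtration ℝ≥0 mΩ)
    (w : (Fin d → ℤ) → ℝ≥0 → Ω → ℝ)
    (w_brownian : ∀ x, IsBrownianReal (w x) P)
    (w_indep : iIndepFun (fun x ω t => w x t ω) P)
    (w_adapted : ∀ x, Adapted F (w x))
    (w_future : ∀ s : ℝ≥0, Indep (MeasurableSpace.comap
      (fun ω (x : Fin d → ℤ) (t : ℝ≥0) => w x (s + t) ω - w x s ω) inferInstance) (F s) P) :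
    ∃ u : ℝ≥0 → (Fin d → ℤ) → Ω → ℝ, IsSolution P F w γ ε k a u ∧
      (∀ u', IsSolution P F w γ ε k a u' → ∀ᵐ ω ∂P, ∀ t x, u' t x ω = u t x ω) ∧
      ∃ (ν : Measure (ℝ≥0 × (Fin d → ℤ) → ℝ)) (_ : IsProbabilityMeasure ν),
        (∀ (s : ℝ≥0) (y : Fin d → ℤ),
          MeasurePreserving (fun f (p : ℝ≥0 × (Fin d → ℤ)) => f (p.1 + s, p.2 + y)) ν ν) ∧
        (∀ A, MeasurableSet A → (∀ y : Fin d → ℤ,
          (fun f (p : ℝ≥0 × (Fin d → ℤ)) => f (p.1, p.2 + y)) ⁻¹' A =ᵐ[ν] A) →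
            ν A = 0 ∨ ν A = 1) ∧
        ∀ I : Finset (ℝ≥0 × (Fin d → ℤ)),
          TendstoInDistribution (fun (t : ℝ≥0) ω (p : I) => u (t + p.1.1) p.1.2 ω) atTop
            (fun f (p : I) => f p) (fun _ => P) ν := by
  obtain ⟨b, rfl⟩ : ∃ b, γ = b + 1 := ⟨γ - 1, by omega⟩
  have h : Noise P F w := ⟨w_brownian, w_indep, w_adapted, w_future⟩
  have hu := h.exists_sol (a := a) (b := b) hk hε.le
  have hb : b ≠ 0 := by omega
  exact ⟨_, ⟨hu.ad, hu.cont, hu.nonneg, hu.mom, hu.eqn⟩,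
    fun u' h' => hu.unique h ⟨h'.1, h'.2.1, h'.2.2.1, h'.2.2.2.1, h'.2.2.2.2⟩ hk hε hb,
    hu.main hd h hk hε hb⟩
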