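import Pool.Agent.Lib.MP_0db9b2_pr.Split.Phase

/-
The phase diagram of the limit field of the nonlinear parabolic Anderson model.
-/

set_option autoImplicit false

open MeasureTheory ProbabilityTheory Filter
open scoped NNReal
open Pool.Agent.Lib.MP_0db9b2_pr

theorem Pool.Agent.Results.MP_0db9b2_pr.PhaseOnly.result
    (d : ℕ) (hd : 1 ≤ d) (γ : ℕ) (hγ : 2 ≤ γ) :
    ∃ ac : ℝ → ℝ, ac 0 = 1 / 2 ∧ (∀ k, 0 < k → 0 ≤ ac k ∧ ac k < 1 / 2) ∧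
      Tendsto ac (nhdsWithin 0 (Set.Ioi 0)) (nhds (1 / 2)) ∧
      ∀ (ε : ℝ), 0 < ε → ∀ (k : ℝ), 0 ≤ k → ∀ (a : ℝ)
        {Ω : Type*} [mΩ : MeasurableSpace Ω] (P : Measure Ω) [IsProbabilityMeasure P]
        (F : Filtration ℝ≥0 mΩ) (w : (Fin d → ℤ) → ℝ≥0 → Ω → ℝ),
        (∀ x, IsBrownianReal (w x) P) →
        iIndepFun (fun x ω t => w x t ω) P →
        (∀ x, Adapted F (w x)) →
        (∀ s : ℝ≥0, Indep (MeasurableSpace.comap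
          (fun ω (x : Fin d → ℤ) (t : ℝ≥0) => w x (s + t) ω - w x s ω) inferInstance) (F s) P) →
        ∀ u : ℝ≥0 → (Fin d → ℤ) → Ω → ℝ, IsSolution P F w γ ε k a u →
          ∀ (ν : Measure (ℝ≥0 × (Fin d → ℤ) → ℝ)) [IsProbabilityMeasure ν],
            (∀ I : Finset (ℝ≥0 × (Fin d → ℤ)),
              TendstoInDistribution (fun (t : ℝ≥0) ω (p : I) => u (t + p.1.1) p.1.2 ω) atTop
                (fun f (p : I) => f p) (fun _ => P) ν) →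
            ((∀ p, ∀ᵐ f ∂ν, f p = 0) ∨ ∀ p, ∀ᵐ f ∂ν, 0 < f p) ∧
            (ac k < a → ∀ p, ∀ᵐ f ∂ν, 0 < f p) ∧
            (a < ac k ∨ a ≤ 0 ∨ (k = 0 ∧ a ≤ 1 / 2) → ∀ p, ∀ᵐ f ∂ν, f p = 0) := by
  obtain ⟨ac, h0, h1, h2, h⟩ := Pool.Agent.Lib.MP_0db9b2_pr.Split.phase d hd γ hγ
  refine ⟨ac, h0, h1, h2, fun ε hε k hk a Ω _ P _ F w c1 c2 c3 c4 u hu ν _ hν => ?_⟩
  obtain ⟨u0, -, un, ν0, p0, -, -, cv, e1, e2, e3⟩ := h ε hε k hk a P F w c1 c2 c3 c4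
  have key : ∀ p (S : Set ℝ), MeasurableSet S → (∀ᵐ f ∂ν0, f p ∈ S) → ∀ᵐ f ∂ν, f p ∈ S := by
    intro p S hS hf
    have a1 := hν {p}
    have a2 := (cv {p}).congr (Y := fun (t : ℝ≥0) ω (q : ({p} : Finset (ℝ≥0 × (Fin d → ℤ)))) => u (t + q.1.1) q.1.2 ω)
      (fun t => (un u hu).mono fun ω hω => funext fun q => (hω _ _).symm) (ae_eq_refl _)
    have a3 := tendsto_nhds_unique a1.tendsto a2.tendsto
    have a4 : ν.map (fun f (q : ({p} : Finset _)) => f q) = ν0.map (fun f (q : ({p} : Finset _)) => f q) :=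
      congrArg Subtype.val a3
    have m : Measurable (fun (f : ℝ≥0 × (Fin d → ℤ) → ℝ) (q : ({p} : Finset _)) => f q) := by fun_prop
    have mS : MeasurableSet {g : ({p} : Finset (ℝ≥0 × (Fin d → ℤ))) → ℝ | g ⟨p, Finset.mem_singleton_self p⟩ ∈ S} :=
      (measurable_pi_apply _) hS
    have := (ae_map_iff m.aemeasurable mS).2 hf
    rw [← a4] at this
    exact (ae_map_iff m.aemeasurable mS).1 this
  have z : (∀ p, ∀ᵐ f ∂ν0, f p = 0) → ∀ p, ∀ᵐ f ∂ν, f p = 0 :=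
    fun h p => key p {0} (measurableSet_singleton 0) (h p)
  have q : (∀ p, ∀ᵐ f ∂ν0, 0 < f p) → ∀ p, ∀ᵐ f ∂ν, 0 < f p :=
    fun h p => key p (Set.Ioi 0) measurableSet_Ioi (h p)
  exact ⟨e1.imp z q, fun h => q (e2 h), fun h => z (e3 h)⟩
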